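import Pool.Agent.MWT.Stmts

/-!
# MWT, row CTB: counting copies
-/

set_option autoImplicit false

namespace Pool.Agent.MWT.H59

open Pool.Agent.Helper14_MV Pool.Agent.Helper2_MV Pool.Agent.MVD Pool.Agent.MWT

theorem gen (p : ℕ → Bool) (m : ℕ) :
    ((List.range (7 * m)).filter (fun b => p (b % 7))).length =
      ((List.range 7).filter p).length * m := by
  induction m with
  | zero => rfl
  | succ m ih =>
    have h1 : 7 * (m + 1) = 7 * m + 7 := by omega
    rw [h1, List.range_add, List.filter_append, List.length_append, ih, List.filter_map,
      List.length_map]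
    have h2 : ((fun b => p (b % 7)) ∘ fun x => 7 * m + x) = fun x => p (x % 7) := by
      funext x
      show p ((7 * m + x) % 7) = p (x % 7)
      rw [Nat.mul_add_mod]
    rw [h2]
    have h3 : (List.range 7).filter (fun x => p (x % 7)) = (List.range 7).filter p := by
      apply List.filter_congr
      intro x hx
      rw [List.mem_range] at hx
      rw [Nat.mod_eq_of_lt hx]
    rw [h3]
    ring

theorem ctb : CtbStmt := by
  intro m e f he hf
  refine ⟨?_, ?_, ?_⟩
  · rw [gen (fun b => decide (own e b)) m]
    congr 1
    rcases he with rfl | rfl | rfl <;> decide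
  · rw [gen (fun b => decide (own e b ∧ own f b)) m]
    congr 1
    rcases he with rfl | rfl | rfl <;> rcases hf with rfl | rfl | rfl <;> decide
  · rw [gen (fun b => decide (own f b ∧ ¬ own e b)) m]
    congr 1
    rcases he with rfl | rfl | rfl <;> rcases hf with rfl | rfl | rfl <;> decide

end Pool.Agent.MWT.H59
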